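import Pool.Agent.P.MP_8704cc_co.Main

open PowerSeries Pool.Agent.P.MP_8704cc_co in
open scoped PowerSeries.WithPiTopology in
theorem Pool.Agent.Results.MP_8704cc_co.ClosedForm.result :
    (∀ n, Finite (TranslClasses n)) ∧ (∀ i j, Summable fun k => qterm k i j) ∧
    constantCoeff ((Matrix.of fun i j => ∑' k, qterm k i j).submatrix id ![1, 2, 3]).det = -2 ∧
    (PowerSeries.mk fun n => (Nat.card (TranslClasses n) : ℚ)) =
      -((Matrix.of fun i j => ∑' k, qterm k i j).submatrix id ![0, 2, 3]).det *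
        (((Matrix.of fun i j => ∑' k, qterm k i j).submatrix id ![1, 2, 3]).det)⁻¹ :=
  Pool.Agent.P.MP_8704cc_co.main
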