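import Pool.Agent.P.MP_8704cc_co.NDMain

open PowerSeries Pool.Agent.P.MP_8704cc_co in
theorem Pool.Agent.Results.MP_8704cc_co.NotDFinite.result (r : ℕ) (c : ℕ → ℝ⟦X⟧) (e : ℝ⟦X⟧) (R : ℝ)
    (hR : 1 < R) (hc : ∀ i, Summable fun n => coeff n (c i) * R ^ n)
    (he : ∀ x : ℝ, |x| < 1 → Summable fun n => coeff n e * x ^ n)
    (h : ∑ i ∈ Finset.range r, c i *
      (derivative ℝ)^[i] (PowerSeries.mk fun n => (Nat.card (TranslClasses n) : ℝ)) = e) :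
    ∀ i < r, c i = 0 :=
  Pool.Agent.P.MP_8704cc_co.notDfinite r c e R hR hc he h
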